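import Pool.Agent.X272.WC.Data

/-! Verification of the certificate. -/

set_option autoImplicit false

namespace Pool.Agent.X272.WC

/-- the code of a monomial in the first three variables -/
def cd (t : ℕ × ℕ × ℕ) : ℕ := t.1 + 15 * t.2.1 + 225 * t.2.2

/-- the triples of sum at most `d` -/
def trip (d : ℕ) : List (ℕ × ℕ × ℕ) :=
  (List.range (d + 1)).flatMap fun a => (List.range (d + 1 - a)).flatMap fun b =>
    (List.range (d + 1 - a - b)).map fun c => (a, b, c)

theorem mem_trip (d : ℕ) (t : ℕ × ℕ × ℕ) : t ∈ trip d ↔ t.1 + t.2.1 + t.2.2 ≤ d := by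
  obtain ⟨a, b, c⟩ := t
  simp only [trip, List.mem_flatMap, List.mem_range, List.mem_map, Prod.mk.injEq]
  constructor
  · rintro ⟨a', ha, b', hb, c', hc, rfl, rfl, rfl⟩
    omega
  · intro h
    exact ⟨a, by omega, b, by omega, c, by omega, rfl, rfl, rfl⟩

/-- the sum (exclusive or) of the shifts of `N` by the codes selected by the bits of the mask -/
def comb (N : ℕ) : List ℕ → ℕ → ℕ
  | [], _ => 0
  | c :: cs, m => Nat.xor (bif Nat.beq (m % 2) 1 then N >>> c else 0) (comb N cs (m / 2))

/-- the check of one combination -/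
def chk (t : ℕ × ℕ × ℕ) (c : ℕ × ℕ) : Bool :=
  Nat.beq (Nat.land (Nat.xor (comb N0 codes6 c.1) (comb N1 codes6 c.2)) mask8) (2 ^ cd t)

/-- the check of all combinations -/
def chkAll : List ((ℕ × ℕ × ℕ) × (ℕ × ℕ)) → Bool
  | [] => true
  | p :: ps => bif chk p.1 p.2 then chkAll ps else false

set_option maxRecDepth 100000 in
theorem cert_ok : chkAll ((trip 8).zip certs) = true := by
  decide +kernel

set_option maxRecDepth 100000 in
theorem codes_ok : codes6 = (trip 6).map cd := by
  decide +kernel

set_option maxRecDepth 100000 in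
theorem mask_ok : (trip 8).all (fun t => mask8.testBit (cd t)) = true := by
  decide +kernel

theorem len_ok : (trip 8).length = certs.length := by
  decide +kernel

end Pool.Agent.X272.WC
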