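import Mathlib

/-! Homotopies for the Koszul complexes of the polynomial ring and of its graded dual, in
characteristic two, in terms of coefficient functions. -/

set_option autoImplicit false

namespace Pool.Agent.X272.WC

open Finset

/-- exponents -/
abbrev U : Type := Fin 6 →₀ ℕ

/-- the indices of the first four variables -/
def X4 : Finset (Fin 6) := univ.filter (fun k => k.val < 4)

/-- unit exponents -/
noncomputable def e (k : Fin 6) : U := Finsupp.single k 1

theorem mem_X4 (k : Fin 6) : k ∈ X4 ↔ k.val < 4 := by simp [X4]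

theorem e_self (k : Fin 6) : e k k = 1 := by simp [e]

theorem e_ne {k l : Fin 6} (h : k ≠ l) : e k l = 0 := by simp [e, h]

section dd

variable {A : Type*} [CommRing A] {ι : Type*} [Fintype ι] [DecidableEq ι]

theorem dd (h2 : ∀ x : A, x + x = 0) (a : ι → A) (f : Finset ι → A) (τ : Finset ι) :
    ∑ k ∈ τᶜ, a k * ∑ l ∈ (insert k τ)ᶜ, a l * f (insert l (insert k τ)) = 0 := by
  have h : ∑ k ∈ τᶜ, a k * ∑ l ∈ (insert k τ)ᶜ, a l * f (insert l (insert k τ)) =
      ∑ x ∈ (τᶜ).sigma (fun k => (insert k τ)ᶜ),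
        a x.1 * (a x.2 * f (insert x.2 (insert x.1 τ))) := by
    rw [Finset.sum_sigma]
    refine Finset.sum_congr rfl fun k _ => ?_
    rw [Finset.mul_sum]
  rw [h]
  refine Finset.sum_involution (fun x _ => ⟨x.2, x.1⟩) ?_ ?_ ?_ ?_
  · rintro ⟨k, l⟩ _
    have hc : insert k (insert l τ) = insert l (insert k τ) := Finset.insert_comm _ _ _
    simp only [hc]
    have : a k * (a l * f (insert l (insert k τ))) = a l * (a k * f (insert l (insert k τ))) := by
      ring
    rw [this]
    exact h2 _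
  · rintro ⟨k, l⟩ hx _ heq
    simp only [mem_sigma, mem_compl, mem_insert, not_or] at hx
    have := congrArg Sigma.fst heq
    exact hx.2.1 this
  · rintro ⟨k, l⟩ hx
    simp only [mem_sigma, mem_compl, mem_insert, not_or] at hx ⊢
    exact ⟨hx.2.2, fun h => hx.2.1 h.symm, hx.1⟩
  · rintro ⟨k, l⟩ _
    rfl

end dd

section L

variable {K : Type*} [CommRing K]

/-- the pivot condition for polynomials -/
def PA (σ : Finset (Fin 6)) (u : U) (k : Fin 6) : Prop :=
  k ∈ σ ∧ k.val < 4 ∧ ∀ k' < k, u k' = 0 ∧ k' ∉ σ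

theorem PA_unique {σ : Finset (Fin 6)} {u : U} {k l : Fin 6} (hk : PA σ u k) (hl : PA σ u l) :
    k = l := by
  rcases lt_trichotomy k l with h | h | h
  · exact absurd hk.1 (hl.2.2 k h).2
  · exact h
  · exact absurd hl.1 (hk.2.2 l h).2

open Classical in
/-- the homotopy for polynomials -/
noncomputable def tt (s : Finset (Fin 6) → U → K) (σ : Finset (Fin 6)) (u : U) : K :=
  if h : ∃ k, PA σ u k then s (σ.erase h.choose) (u + e h.choose) else 0

theorem tt_eq (s : Finset (Fin 6) → U → K) {σ : Finset (Fin 6)} {u : U} {k : Fin 6}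
    (h : PA σ u k) : tt s σ u = s (σ.erase k) (u + e k) := by
  have h' : ∃ k, PA σ u k := ⟨k, h⟩
  unfold tt
  rw [dif_pos h']
  rw [PA_unique h'.choose_spec h]

theorem tt_zero (s : Finset (Fin 6) → U → K) {σ : Finset (Fin 6)} {u : U}
    (h : ∀ k, ¬ PA σ u k) : tt s σ u = 0 := by
  unfold tt
  rw [dif_neg]
  push Not
  exact h

theorem tt_ne (s : Finset (Fin 6) → U → K) {σ : Finset (Fin 6)} {u : U}
    (h : tt s σ u ≠ 0) : ∃ k ∈ σ, tt s σ u = s (σ.erase k) (u + e k) := by
  by_cases h' : ∃ k, PA σ u k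
  · obtain ⟨k, hk⟩ := h'
    exact ⟨k, hk.1, tt_eq s hk⟩
  · push Not at h'
    exact absurd (tt_zero s h') h

theorem L1 (h2 : ∀ x : K, x + x = 0) (s : Finset (Fin 6) → U → K)
    (hcyc : ∀ τ u, ∑ k ∈ X4 \ τ, (if 1 ≤ u k then s (insert k τ) (u - e k) else 0) = 0)
    (τ : Finset (Fin 6)) (u : U) (hP : ∃ k : Fin 6, k.val < 4 ∧ (1 ≤ u k ∨ k ∈ τ)) :
    ∑ k ∈ X4 \ τ, (if 1 ≤ u k then tt s (insert k τ) (u - e k) else 0) = s τ u := by
  obtain ⟨k0, hk0, hmin⟩ := WellFounded.has_min (wellFounded_lt (α := Fin 6))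
    {k : Fin 6 | k.val < 4 ∧ (1 ≤ u k ∨ k ∈ τ)} hP
  have hlow : ∀ k' < k0, u k' = 0 ∧ k' ∉ τ := by
    intro k' hk'
    have h1 : ¬ (k'.val < 4 ∧ (1 ≤ u k' ∨ k' ∈ τ)) := fun h => hmin k' h hk'
    have h3 : k'.val < 4 := lt_trans (Fin.lt_def.1 hk') hk0.1
    push Not at h1
    have := h1 h3
    exact ⟨by omega, this.2⟩
  have hge : ∀ k : Fin 6, k.val < 4 → (1 ≤ u k ∨ k ∈ τ) → k0 ≤ k := fun k h1 h3 =>
    not_lt.1 (hmin k ⟨h1, h3⟩)
  by_cases hkt : k0 ∈ τ
  · -- the pivot belongs to τ
    have hterm : ∀ k ∈ X4 \ τ, (if 1 ≤ u k then tt s (insert k τ) (u - e k) else 0) =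
        if 1 ≤ (u + e k0) k then s (insert k (τ.erase k0)) (u + e k0 - e k) else 0 := by
      intro k hk
      rw [mem_sdiff, mem_X4] at hk
      have hkk : k0 ≠ k := fun h => hk.2 (h ▸ hkt)
      have h5 : (u + e k0) k = u k := by simp [e_ne hkk]
      rw [h5]
      by_cases h6 : 1 ≤ u k
      · rw [if_pos h6, if_pos h6]
        have hkl : k0 < k := lt_of_le_of_ne (hge k hk.1 (Or.inl h6)) hkk
        have hA : PA (insert k τ) (u - e k) k0 := by
          refine ⟨mem_insert_of_mem hkt, hk0.1, fun k' hk' => ⟨?_, ?_⟩⟩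
          · have := (hlow k' hk').1
            simp [this]
          · rw [mem_insert, not_or]
            exact ⟨(lt_trans hk' hkl).ne, (hlow k' hk').2⟩
        rw [tt_eq s hA, Finset.erase_insert_of_ne (Ne.symm hkk)]
        congr 1
        ext x
        simp only [Finsupp.coe_add, Finsupp.coe_tsub, Pi.add_apply, Pi.sub_apply]
        rcases eq_or_ne k x with rfl | hx
        · rw [e_self, e_ne hkk]; omega
        · rw [e_ne hx]; omega
      · rw [if_neg h6, if_neg h6]
    rw [Finset.sum_congr rfl hterm]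
    have hc := hcyc (τ.erase k0) (u + e k0)
    have hset : X4 \ τ.erase k0 = insert k0 (X4 \ τ) := by
      ext x
      simp only [mem_sdiff, mem_erase, mem_insert, not_and, mem_X4]
      constructor
      · rintro ⟨h1, h3⟩
        by_cases hx : x = k0
        · exact Or.inl hx
        · exact Or.inr ⟨h1, h3 hx⟩
      · rintro (rfl | ⟨h1, h3⟩)
        · exact ⟨hk0.1, fun h => absurd rfl h⟩
        · exact ⟨h1, fun _ => h3⟩
    rw [hset, Finset.sum_insert (by simp [hkt])] at hc
    have h7 : 1 ≤ (u + e k0) k0 := by simp [e_self]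
    rw [if_pos h7, Finset.insert_erase hkt, add_tsub_cancel_right] at hc
    have h8 := h2 (s τ u)
    calc _ = -(s τ u) := by rw [eq_neg_iff_add_eq_zero, add_comm]; exact hc
      _ = s τ u := by rw [neg_eq_iff_add_eq_zero]; exact h8
  · -- the pivot does not belong to τ
    have hu0 : 1 ≤ u k0 := by
      rcases hk0.2 with h | h
      · exact h
      · exact absurd h hkt
    rw [Finset.sum_eq_single k0]
    · rw [if_pos hu0]
      have hA : PA (insert k0 τ) (u - e k0) k0 := by
        refine ⟨mem_insert_self _ _, hk0.1, fun k' hk' => ⟨?_, ?_⟩⟩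
        · have := (hlow k' hk').1
          simp [this]
        · rw [mem_insert, not_or]
          exact ⟨hk'.ne, (hlow k' hk').2⟩
      rw [tt_eq s hA, Finset.erase_insert hkt]
      congr 1
      ext x
      simp only [Finsupp.coe_add, Finsupp.coe_tsub, Pi.add_apply, Pi.sub_apply]
      rcases eq_or_ne k0 x with rfl | hx
      · rw [e_self]; omega
      · rw [e_ne hx]; omega
    · intro k hk hkk
      rw [mem_sdiff, mem_X4] at hk
      by_cases h6 : 1 ≤ u k
      · rw [if_pos h6]
        have hkl : k0 < k := lt_of_le_of_ne (hge k hk.1 (Or.inl h6)) (Ne.symm hkk)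
        apply tt_zero
        rintro k1 ⟨h7, h8, h9⟩
        have hk1 : k0 < k1 := by
          rw [mem_insert] at h7
          rcases h7 with rfl | h7
          · exact hkl
          · exact lt_of_le_of_ne (hge k1 h8 (Or.inr h7)) (fun h => hkt (h ▸ h7))
        have h10 := (h9 k0 hk1).1
        simp only [Finsupp.coe_tsub, Pi.sub_apply, e_ne hkk] at h10
        omega
      · rw [if_neg h6]
    · intro h
      exact absurd (by rw [mem_sdiff, mem_X4]; exact ⟨hk0.1, hkt⟩) h

/-- the pivot condition for the dual -/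
def PB (σ : Finset (Fin 6)) (v : U) (k : Fin 6) : Prop :=
  k ∈ σ ∧ k.val < 4 ∧ 1 ≤ v k ∧ ∀ k' < k, v k' = 0 ∧ k' ∈ σ

theorem PB_unique {σ : Finset (Fin 6)} {u : U} {k l : Fin 6} (hk : PB σ u k) (hl : PB σ u l) :
    k = l := by
  rcases lt_trichotomy k l with h | h | h
  · have h1 := (hl.2.2.2 k h).1
    have h3 := hk.2.2.1
    omega
  · exact h
  · have h1 := (hk.2.2.2 l h).1
    have h3 := hl.2.2.1
    omega

open Classical in
/-- the homotopy for the dual -/
noncomputable def pp (s : Finset (Fin 6) → U → K) (σ : Finset (Fin 6)) (u : U) : K :=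
  if h : ∃ k, PB σ u k then s (σ.erase h.choose) (u - e h.choose) else 0

theorem pp_eq (s : Finset (Fin 6) → U → K) {σ : Finset (Fin 6)} {u : U} {k : Fin 6}
    (h : PB σ u k) : pp s σ u = s (σ.erase k) (u - e k) := by
  have h' : ∃ k, PB σ u k := ⟨k, h⟩
  unfold pp
  rw [dif_pos h']
  rw [PB_unique h'.choose_spec h]

theorem pp_zero (s : Finset (Fin 6) → U → K) {σ : Finset (Fin 6)} {u : U}
    (h : ∀ k, ¬ PB σ u k) : pp s σ u = 0 := by
  unfold pp
  rw [dif_neg]
  push Not
  exact h

theorem pp_ne (s : Finset (Fin 6) → U → K) {σ : Finset (Fin 6)} {u : U}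
    (h : pp s σ u ≠ 0) : ∃ k ∈ σ, 1 ≤ u k ∧ pp s σ u = s (σ.erase k) (u - e k) := by
  by_cases h' : ∃ k, PB σ u k
  · obtain ⟨k, hk⟩ := h'
    exact ⟨k, hk.1, hk.2.2.1, pp_eq s hk⟩
  · push Not at h'
    exact absurd (pp_zero s h') h

theorem L2 (h2 : ∀ x : K, x + x = 0) (s : Finset (Fin 6) → U → K)
    (hcyc : ∀ τ v, ∑ k ∈ X4 \ τ, s (insert k τ) (v + e k) = 0)
    (τ : Finset (Fin 6)) (v : U) (hP : ∃ k : Fin 6, k.val < 4 ∧ (1 ≤ v k ∨ k ∉ τ)) :
    ∑ k ∈ X4 \ τ, pp s (insert k τ) (v + e k) = s τ v := by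
  obtain ⟨k0, hk0, hmin⟩ := WellFounded.has_min (wellFounded_lt (α := Fin 6))
    {k : Fin 6 | k.val < 4 ∧ (1 ≤ v k ∨ k ∉ τ)} hP
  have hlow : ∀ k' < k0, v k' = 0 ∧ k' ∈ τ := by
    intro k' hk'
    have h1 : ¬ (k'.val < 4 ∧ (1 ≤ v k' ∨ k' ∉ τ)) := fun h => hmin k' h hk'
    have h3 : k'.val < 4 := lt_trans (Fin.lt_def.1 hk') hk0.1
    push Not at h1
    have := h1 h3
    exact ⟨by omega, this.2⟩
  have hge : ∀ k : Fin 6, k.val < 4 → (1 ≤ v k ∨ k ∉ τ) → k0 ≤ k := fun k h1 h3 =>
    not_lt.1 (hmin k ⟨h1, h3⟩)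
  by_cases hkt : k0 ∈ τ
  · have hv0 : 1 ≤ v k0 := by
      rcases hk0.2 with h | h
      · exact h
      · exact absurd hkt h
    have hterm : ∀ k ∈ X4 \ τ, pp s (insert k τ) (v + e k) =
        s (insert k (τ.erase k0)) (v - e k0 + e k) := by
      intro k hk
      rw [mem_sdiff, mem_X4] at hk
      have hkk : k0 ≠ k := fun h => hk.2 (h ▸ hkt)
      have hkl : k0 < k := lt_of_le_of_ne (hge k hk.1 (Or.inr hk.2)) hkk
      have hB : PB (insert k τ) (v + e k) k0 := by
        refine ⟨mem_insert_of_mem hkt, hk0.1, ?_, fun k' hk' => ⟨?_, ?_⟩⟩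
        · simp only [Finsupp.coe_add, Pi.add_apply]; omega
        · have h5 := (hlow k' hk').1
          have h6 : k ≠ k' := (lt_trans hk' hkl).ne'
          simp [h5, e_ne h6]
        · exact mem_insert_of_mem (hlow k' hk').2
      rw [pp_eq s hB, Finset.erase_insert_of_ne (Ne.symm hkk)]
      congr 1
      ext x
      simp only [Finsupp.coe_add, Finsupp.coe_tsub, Pi.add_apply, Pi.sub_apply]
      rcases eq_or_ne k0 x with rfl | hx
      · rw [e_self, e_ne (Ne.symm hkk)]; omega
      · rw [e_ne hx]; omega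
    rw [Finset.sum_congr rfl hterm]
    have hc := hcyc (τ.erase k0) (v - e k0)
    have hset : X4 \ τ.erase k0 = insert k0 (X4 \ τ) := by
      ext x
      simp only [mem_sdiff, mem_erase, mem_insert, not_and, mem_X4]
      constructor
      · rintro ⟨h1, h3⟩
        by_cases hx : x = k0
        · exact Or.inl hx
        · exact Or.inr ⟨h1, h3 hx⟩
      · rintro (rfl | ⟨h1, h3⟩)
        · exact ⟨hk0.1, fun h => absurd rfl h⟩
        · exact ⟨h1, fun _ => h3⟩
    have hback : v - e k0 + e k0 = v := by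
      ext x
      simp only [Finsupp.coe_add, Finsupp.coe_tsub, Pi.add_apply, Pi.sub_apply]
      rcases eq_or_ne k0 x with rfl | hx
      · rw [e_self]; omega
      · rw [e_ne hx]; omega
    rw [hset, Finset.sum_insert (by simp [hkt]), Finset.insert_erase hkt, hback] at hc
    have h8 := h2 (s τ v)
    calc _ = -(s τ v) := by rw [eq_neg_iff_add_eq_zero, add_comm]; exact hc
      _ = s τ v := by rw [neg_eq_iff_add_eq_zero]; exact h8
  · rw [Finset.sum_eq_single k0]
    · have hB : PB (insert k0 τ) (v + e k0) k0 := by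
        refine ⟨mem_insert_self _ _, hk0.1, ?_, fun k' hk' => ⟨?_, ?_⟩⟩
        · simp only [Finsupp.coe_add, Pi.add_apply, e_self]; omega
        · have h5 := (hlow k' hk').1
          simp [h5, e_ne hk'.ne']
        · exact mem_insert_of_mem (hlow k' hk').2
      rw [pp_eq s hB, Finset.erase_insert hkt, add_tsub_cancel_right]
    · intro k hk hkk
      rw [mem_sdiff, mem_X4] at hk
      have hkl : k0 < k := lt_of_le_of_ne (hge k hk.1 (Or.inr hk.2)) (Ne.symm hkk)
      apply pp_zero
      rintro k1 ⟨h7, h8, h9, h10⟩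
      have hk1 : k0 < k1 := by
        rw [mem_insert] at h7
        rcases eq_or_ne k k1 with rfl | h11
        · exact hkl
        · simp only [Finsupp.coe_add, Pi.add_apply, e_ne h11, add_zero] at h9
          refine lt_of_le_of_ne (hge k1 h8 (Or.inl h9)) ?_
          rintro rfl
          rcases h7 with h7 | h7
          · exact h11 h7.symm
          · exact hkt h7
      have h12 := (h10 k0 hk1).2
      rw [mem_insert] at h12
      rcases h12 with h12 | h12
      · exact hkk h12.symm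
      · exact hkt h12
    · intro h
      exact absurd (by rw [mem_sdiff, mem_X4]; exact ⟨hk0.1, hkt⟩) h

end L

end Pool.Agent.X272.WC
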