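import Pool.Agent.X272.WC.Ring

/-! Every functional of order eight is a combination of contractions of the two forms. -/

set_option autoImplicit false

namespace Pool.Agent.X272.WC

open MvPolynomial Finset

/-- a bit as an element of the field -/
def b2k (b : Bool) : K := bif b then 1 else 0

theorem b2k_xor (a b : Bool) : b2k (a ^^ b) = b2k a + b2k b := by
  cases a <;> cases b <;> rfl

/-- the exponent of degree `d` with the given first three entries -/
noncomputable def uu (d : ℕ) (t : ℕ × ℕ × ℕ) : U :=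
  Finsupp.equivFunOnFinite.symm ![t.1, t.2.1, t.2.2, d - (t.1 + t.2.1 + t.2.2), 0, 0]

theorem uu_0 (d : ℕ) (t : ℕ × ℕ × ℕ) : uu d t 0 = t.1 := rfl
theorem uu_1 (d : ℕ) (t : ℕ × ℕ × ℕ) : uu d t 1 = t.2.1 := rfl
theorem uu_2 (d : ℕ) (t : ℕ × ℕ × ℕ) : uu d t 2 = t.2.2 := rfl
theorem uu_3 (d : ℕ) (t : ℕ × ℕ × ℕ) : uu d t 3 = d - (t.1 + t.2.1 + t.2.2) := rfl
theorem uu_4 (d : ℕ) (t : ℕ × ℕ × ℕ) : uu d t 4 = 0 := rfl
theorem uu_5 (d : ℕ) (t : ℕ × ℕ × ℕ) : uu d t 5 = 0 := rfl

theorem degree_six (m : U) : m.degree = m 0 + m 1 + m 2 + m 3 + m 4 + m 5 := by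
  rw [Finsupp.degree_eq_sum, Fin.sum_univ_six]

theorem uu_xonly (d : ℕ) (t : ℕ × ℕ × ℕ) : xonly (uu d t) := ⟨rfl, rfl⟩

theorem uu_degree {d : ℕ} {t : ℕ × ℕ × ℕ} (h : t ∈ trip d) : (uu d t).degree = d := by
  rw [mem_trip] at h
  rw [degree_six, uu_0, uu_1, uu_2, uu_3, uu_4, uu_5]
  omega

/-- the triple of an exponent -/
def tr (m : U) : ℕ × ℕ × ℕ := (m 0, m 1, m 2)

theorem tr_mem {d : ℕ} {m : U} (h : m.degree = d) : tr m ∈ trip d := by
  rw [mem_trip]
  rw [degree_six] at h
  simp only [tr]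
  omega

theorem uu_tr {d : ℕ} {m : U} (h : m.degree = d) (hx : xonly m) : uu d (tr m) = m := by
  rw [degree_six] at h
  have h4 := hx.1
  have h5 := hx.2
  ext k
  fin_cases k
  · rfl
  · rfl
  · rfl
  · change d - (m 0 + m 1 + m 2) = m 3
    omega
  · exact h4.symm
  · exact h5.symm

theorem code_eq (m : U) : code m = cd (tr m) := rfl

theorem code_add (m v : U) : code (m + v) = code m + code v := by
  simp only [code, Finsupp.coe_add, Pi.add_apply]
  ring

theorem code_uu (d : ℕ) (t : ℕ × ℕ × ℕ) : code (uu d t) = cd t := rfl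

theorem cd_inj {t s : ℕ × ℕ × ℕ} (ht : t ∈ trip 8) (hs : s ∈ trip 8) (h : cd t = cd s) :
    t = s := by
  obtain ⟨a, b, c⟩ := t
  obtain ⟨a', b', c'⟩ := s
  rw [mem_trip] at ht hs
  simp only [cd] at h ht hs
  have : c = c' := by omega
  subst this
  have : b = b' := by omega
  subst this
  have : a = a' := by omega
  subst this
  rfl

/-- the polynomial given by a mask -/
noncomputable def gpoly : List (ℕ × ℕ × ℕ) → ℕ → T
  | [], _ => 0
  | t :: ts, m => (bif Nat.beq (m % 2) 1 then monomial (uu 6 t) 1 else 0) + gpoly ts (m / 2)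

theorem gpoly_supp (ts : List (ℕ × ℕ × ℕ)) (hts : ∀ t ∈ ts, t ∈ trip 6) (m : ℕ) (u : U)
    (hu : coeff u (gpoly ts m) ≠ 0) : u.degree = 6 ∧ xonly u := by
  induction ts generalizing m with
  | nil => exact absurd (coeff_zero _) hu
  | cons t ts ih =>
    simp only [gpoly, coeff_add] at hu
    by_cases h1 : coeff u (gpoly ts (m / 2)) = 0
    · rw [h1, add_zero] at hu
      cases h3 : Nat.beq (m % 2) 1
      · rw [h3, cond_false, coeff_zero] at hu
        exact absurd rfl hu
      · rw [h3, cond_true, coeff_monomial] at hu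
        split_ifs at hu with h5
        · rw [← h5]
          exact ⟨uu_degree (hts t List.mem_cons_self), uu_xonly _ _⟩
        · exact absurd rfl hu
    · exact ih (fun s hs => hts s (List.mem_cons_of_mem _ hs)) _ h1

theorem add_smulE (a b : T) (φ : E) : (a + b) • φ = a • φ + b • φ := add_smul a b φ

theorem fv_bit (N : ℕ) (t : ℕ × ℕ × ℕ) (ht : t ∈ trip 6) (v : U) (hv : v.degree = 8)
    (hx : xonly v) :
    ev ((monomial (uu 6 t) 1 : T) • FF N) (monomial v 1) = b2k ((N >>> cd t).testBit (code v)) := by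
  rw [ev_smul, monomial_mul, mul_one, ev_FF, fv, Nat.testBit_shiftRight, code_add, code_uu]
  have h1 : (uu 6 t + v).degree = 14 := by rw [degree_add, uu_degree ht, hv]
  have h3 : xonly (uu 6 t + v) := xonly_add.2 ⟨uu_xonly _ _, hx⟩
  cases h5 : N.testBit (cd t + code v)
  · rw [if_neg]
    · rfl
    · rintro ⟨_, _, h⟩
      exact absurd h (by decide)
  · rw [if_pos ⟨h1, h3, rfl⟩]
    rfl

theorem gpoly_ev (N : ℕ) (v : U) (hv : v.degree = 8) (hx : xonly v) (ts : List (ℕ × ℕ × ℕ))
    (hts : ∀ t ∈ ts, t ∈ trip 6) (m : ℕ) :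
    ev (gpoly ts m • FF N) (monomial v 1) = b2k ((comb N (ts.map cd) m).testBit (code v)) := by
  induction ts generalizing m with
  | nil =>
    simp only [gpoly, List.map_nil, comb, Nat.zero_testBit]
    rw [ev_smul, zero_mul, ev_zero']
    rfl
  | cons t ts ih =>
    simp only [gpoly, List.map_cons, comb]
    rw [add_smulE, ev_add, ih (fun s hs => hts s (List.mem_cons_of_mem _ hs))]
    have hxor : ∀ a b : ℕ, (Nat.xor a b).testBit (code v) =
        (a.testBit (code v) ^^ b.testBit (code v)) := fun a b => Nat.testBit_xor a b _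
    rw [hxor, b2k_xor]
    congr 1
    cases h3 : Nat.beq (m % 2) 1
    · rw [cond_false, cond_false, Nat.zero_testBit, ev_smul, zero_mul, ev_zero']
      rfl
    · rw [cond_true, cond_true]
      exact fv_bit N t (hts t List.mem_cons_self) v hv hx

theorem chkAll_mem {L : List ((ℕ × ℕ × ℕ) × (ℕ × ℕ))} (h : chkAll L = true)
    {p : (ℕ × ℕ × ℕ) × (ℕ × ℕ)} (hp : p ∈ L) : chk p.1 p.2 = true := by
  induction L with
  | nil => exact absurd hp List.not_mem_nil
  | cons q L ih =>
    simp only [chkAll] at h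
    cases h1 : chk q.1 q.2
    · rw [h1, cond_false] at h
      exact absurd h (by decide)
    · rw [h1, cond_true] at h
      rcases List.mem_cons.1 hp with rfl | hp
      · exact h1
      · exact ih h hp

theorem exists_chk {t : ℕ × ℕ × ℕ} (ht : t ∈ trip 8) : ∃ c, chk t c = true := by
  obtain ⟨i, hi, rfl⟩ := List.mem_iff_getElem.1 ht
  have hi' : i < certs.length := by rw [← len_ok]; exact hi
  have hz : i < ((trip 8).zip certs).length := by
    rw [List.length_zip]
    exact lt_min hi hi'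
  refine ⟨certs[i], ?_⟩
  have h1 : ((trip 8)[i], certs[i]) ∈ (trip 8).zip certs := by
    rw [List.mem_iff_getElem]
    exact ⟨i, hz, List.getElem_zip⟩
  exact chkAll_mem cert_ok h1

/-- the indicator functional -/
noncomputable def del (w : U) : E := ofFun (fun v => if v = w then 1 else 0)

theorem ev_del (w v : U) : ev (del w) (monomial v 1) = if v = w then 1 else 0 := ev_ofFun _ _

theorem cover (w : U) (hw : w.degree = 8) (hx : xonly w) :
    ∃ g0 g1 : T, (∀ m, coeff m g0 ≠ 0 → m.degree = 6 ∧ xonly m) ∧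
      (∀ m, coeff m g1 ≠ 0 → m.degree = 6 ∧ xonly m) ∧
      g0 • FF N0 + g1 • FF N1 = del w := by
  have ht : tr w ∈ trip 8 := tr_mem hw
  obtain ⟨c, hc⟩ := exists_chk ht
  have hts : ∀ t ∈ trip 6, t ∈ trip 6 := fun t h => h
  refine ⟨gpoly (trip 6) c.1, gpoly (trip 6) c.2, gpoly_supp _ hts _, gpoly_supp _ hts _, ?_⟩
  apply E_ext
  intro v
  rw [ev_del]
  by_cases hv : v.degree = 8 ∧ xonly v
  · rw [ev_add, gpoly_ev N0 v hv.1 hv.2 _ hts, gpoly_ev N1 v hv.1 hv.2 _ hts, ← b2k_xor,
      ← codes_ok, ← Nat.testBit_xor]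
    have h1 : Nat.land (Nat.xor (comb N0 codes6 c.1) (comb N1 codes6 c.2)) mask8 = 2 ^ cd (tr w) :=
      Nat.eq_of_beq_eq_true hc
    have h3 : (Nat.land (Nat.xor (comb N0 codes6 c.1) (comb N1 codes6 c.2)) mask8).testBit (code v)
        = (2 ^ cd (tr w)).testBit (code v) := by rw [h1]
    have h5 : (Nat.land (Nat.xor (comb N0 codes6 c.1) (comb N1 codes6 c.2)) mask8).testBit (code v)
        = ((comb N0 codes6 c.1 ^^^ comb N1 codes6 c.2).testBit (code v) &&
          mask8.testBit (code v)) := Nat.testBit_and _ _ _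
    have h6 : mask8.testBit (code v) = true := by
      have := List.all_eq_true.1 mask_ok (tr v) (tr_mem hv.1)
      exact this
    rw [h5, h6, Bool.and_true, Nat.testBit_two_pow] at h3
    rw [h3]
    by_cases hvw : v = w
    · subst hvw
      rw [if_pos rfl]
      have : decide (cd (tr v) = code v) = true := by rw [decide_eq_true_iff]; rfl
      rw [this]
      rfl
    · rw [if_neg hvw]
      have : decide (cd (tr w) = code v) = false := by
        rw [decide_eq_false_iff_not]
        intro h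
        apply hvw
        have := cd_inj ht (tr_mem hv.1) h
        rw [← uu_tr hv.1 hv.2, ← uu_tr hw hx, this]
      rw [this]
      rfl
  · have hvw : v ≠ w := by
      rintro rfl
      exact hv ⟨hw, hx⟩
    rw [if_neg hvw]
    by_contra hne
    apply hv
    have key : ∀ (g : T) (N : ℕ), (∀ m, coeff m g ≠ 0 → m.degree = 6 ∧ xonly m) →
        ev (g • FF N) (monomial v 1) ≠ 0 → v.degree = 8 ∧ xonly v := by
      intro g N hg hne
      rw [ev_smul_monomial] at hne
      obtain ⟨m, _, hne⟩ := Finset.exists_ne_zero_of_sum_ne_zero hne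
      obtain ⟨h1, h3⟩ := hg m (left_ne_zero_of_mul hne)
      have h4 := right_ne_zero_of_mul hne
      rw [ev_FF, fv] at h4
      split_ifs at h4 with h5
      · rw [degree_add, h1] at h5
        exact ⟨by omega, (xonly_add.1 h5.2.1).2⟩
      · exact absurd rfl h4
    rw [ev_add] at hne
    by_cases h1 : ev (gpoly (trip 6) c.1 • FF N0) (monomial v 1) = 0
    · rw [h1, zero_add] at hne
      exact key _ _ (gpoly_supp _ hts _) hne
    · exact key _ _ (gpoly_supp _ hts _) h1

end Pool.Agent.X272.WC
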