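import Pool.Agent.X272.WC.Surj

/-! Exactness of the Koszul complex in homological degree three. -/

set_option autoImplicit false

namespace Pool.Agent.X272.WC

open MvPolynomial Finset

/-- the polynomial with given coefficients in degree `d` -/
noncomputable def pc (d : ℕ) (f : U → K) : T :=
  ∑ u ∈ finsuppAntidiag (univ : Finset (Fin 6)) d, monomial u (f u)

theorem mem_fa (u : U) (d : ℕ) : u ∈ finsuppAntidiag (univ : Finset (Fin 6)) d ↔ u.degree = d := by
  rw [mem_finsuppAntidiag, Finsupp.degree_eq_sum]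
  constructor
  · exact fun h => h.1
  · exact fun h => ⟨h, fun x _ => mem_univ x⟩

theorem coeff_pc {d : ℕ} {f : U → K} (h : ∀ u, f u ≠ 0 → u.degree = d) (u : U) :
    coeff u (pc d f) = f u := by
  classical
  rw [pc, coeff_sum]
  simp only [coeff_monomial]
  rw [Finset.sum_ite_eq']
  split_ifs with h1
  · rfl
  · by_contra h3
    exact h1 ((mem_fa _ _).2 (h u (Ne.symm h3)))

theorem fst_gen_mul (k : Fin 6) (w : R) (u : U) :
    coeff u (gen k * w).fst =
      if k.val < 4 then (if 1 ≤ u k then coeff (u - e k) w.fst else 0) else 0 := by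
  rw [TrivSqZeroExt.fst_mul]
  by_cases hk : k.val < 4
  · rw [if_pos hk]
    have h1 : (gen k).fst = X k := by
      unfold gen
      rw [if_pos hk, TrivSqZeroExt.fst_inl]
    rw [h1, coeff_X_mul']
    by_cases h3 : 1 ≤ u k
    · rw [if_pos h3, if_pos]
      · rfl
      · rw [Finsupp.mem_support_iff]; omega
    · rw [if_neg h3, if_neg]
      rw [Finsupp.mem_support_iff]; omega
  · rw [if_neg hk]
    have h1 : (gen k).fst = 0 := by
      unfold gen
      rw [if_neg hk]
      split_ifs <;> rw [TrivSqZeroExt.fst_inr]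
    rw [h1, zero_mul, coeff_zero]

theorem snd_gen_mul (k : Fin 6) (w : R) (hw : w.fst = 0) (v : U) :
    ev (gen k * w).snd (monomial v 1) =
      if k.val < 4 then ev w.snd (monomial (v + e k) 1) else 0 := by
  rw [TrivSqZeroExt.snd_mul, hw]
  have h0 : (MulOpposite.op (0 : T)) • (gen k).snd = 0 := by
    rw [MulOpposite.op_zero, zero_smul]
  rw [h0, add_zero]
  by_cases hk : k.val < 4
  · rw [if_pos hk]
    have h1 : (gen k).fst = X k := by
      unfold gen
      rw [if_pos hk, TrivSqZeroExt.fst_inl]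
    rw [h1, ev_X_smul]
  · rw [if_neg hk]
    have h1 : (gen k).fst = 0 := by
      unfold gen
      rw [if_neg hk]
      split_ifs <;> rw [TrivSqZeroExt.fst_inr]
    rw [h1, zero_smul, ev_zero]

/-- the differential -/
noncomputable def dif (c : Finset (Fin 6) → R) (τ : Finset (Fin 6)) : R :=
  ∑ k ∈ τᶜ, gen k * c (insert k τ)

theorem filt (τ : Finset (Fin 6)) : (τᶜ).filter (fun k : Fin 6 => k.val < 4) = X4 \ τ := by
  ext k
  rw [mem_filter, mem_compl, mem_sdiff, mem_X4, and_comm]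

theorem coeff_dif (c : Finset (Fin 6) → R) (τ : Finset (Fin 6)) (u : U) :
    coeff u (dif c τ).fst =
      ∑ k ∈ X4 \ τ, if 1 ≤ u k then coeff (u - e k) (c (insert k τ)).fst else 0 := by
  rw [dif, TrivSqZeroExt.fst_sum, coeff_sum]
  simp only [fst_gen_mul]
  rw [← Finset.sum_filter, filt]

theorem ev_dif (c : Finset (Fin 6) → R) (hc : ∀ σ, (c σ).fst = 0) (τ : Finset (Fin 6)) (v : U) :
    ev (dif c τ).snd (monomial v 1) =
      ∑ k ∈ X4 \ τ, ev (c (insert k τ)).snd (monomial (v + e k) 1) := by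
  rw [dif, TrivSqZeroExt.snd_sum, ev_sum]
  have : ∀ k ∈ τᶜ, ev (gen k * c (insert k τ)).snd (monomial v 1) =
      if k.val < 4 then ev (c (insert k τ)).snd (monomial (v + e k) 1) else 0 :=
    fun k _ => snd_gen_mul k _ (hc _) v
  rw [Finset.sum_congr rfl this, ← Finset.sum_filter, filt]

theorem dif_add (c c' : Finset (Fin 6) → R) (τ : Finset (Fin 6)) :
    dif (fun σ => c σ + c' σ) τ = dif c τ + dif c' τ := by
  unfold dif
  rw [← Finset.sum_add_distrib]
  refine Finset.sum_congr rfl fun k _ => ?_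
  rw [mul_add]

theorem dif_dif (c : Finset (Fin 6) → R) (τ : Finset (Fin 6)) : dif (dif c) τ = 0 :=
  dd h2R gen c τ

theorem G_dif {d : ℕ} {c : Finset (Fin 6) → R} (hc : ∀ σ, G d (c σ)) (τ : Finset (Fin 6)) :
    G (d + 1) (dif c τ) := by
  apply G_sum
  intro k _
  rw [add_comm]
  exact G_mul (G_gen k) (hc _)

theorem pp_ne' (s : Finset (Fin 6) → U → K) {σ : Finset (Fin 6)} {u : U}
    (h : pp s σ u ≠ 0) :
    ∃ k ∈ σ, k.val < 4 ∧ 1 ≤ u k ∧ pp s σ u = s (σ.erase k) (u - e k) := by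
  by_cases h' : ∃ k, PB σ u k
  · obtain ⟨k, hk⟩ := h'
    exact ⟨k, hk.1, hk.2.1, hk.2.2.1, pp_eq s hk⟩
  · push Not at h'
    exact absurd (pp_zero s h') h

theorem card_of_erase {σ : Finset (Fin 6)} {k : Fin 6} (hk : k ∈ σ)
    (h : (σ.erase k).card = 3) : σ.card = 4 := by
  rw [Finset.card_erase_of_mem hk] at h
  omega

theorem sub_add_e {u : U} {k : Fin 6} (h : 1 ≤ u k) : u - e k + e k = u := by
  ext x
  simp only [Finsupp.coe_add, Finsupp.coe_tsub, Pi.add_apply, Pi.sub_apply]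
  rcases eq_or_ne k x with rfl | hx
  · rw [e_self]; omega
  · rw [e_ne hx]; omega

theorem exact3 (w : Finset (Fin 6) → R) (d : ℕ) (hw : ∀ σ, σ.card ≠ 3 → w σ = 0)
    (hG : ∀ σ, G (d + 1) (w σ)) (hc : ∀ τ, dif w τ = 0) :
    ∃ η : Finset (Fin 6) → R, (∀ σ, σ.card ≠ 4 → η σ = 0) ∧ (∀ σ, G d (η σ)) ∧
      ∀ τ, dif η τ = w τ := by
  -- the first part
  let A : Finset (Fin 6) → U → K := fun σ u => coeff u (w σ).fst
  have hA3 : ∀ σ u, A σ u ≠ 0 → σ.card = 3 := by
    intro σ u h
    by_contra h1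
    apply h
    change coeff u (w σ).fst = 0
    rw [hw σ h1, TrivSqZeroExt.fst_zero, coeff_zero]
  have hcycA : ∀ τ u, ∑ k ∈ X4 \ τ,
      (if 1 ≤ u k then A (insert k τ) (u - e k) else 0) = 0 := by
    intro τ u
    have h := coeff_dif w τ u
    rw [hc, TrivSqZeroExt.fst_zero, coeff_zero] at h
    exact h.symm
  have hL1 : ∀ τ u, ∑ k ∈ X4 \ τ,
      (if 1 ≤ u k then tt A (insert k τ) (u - e k) else 0) = A τ u := by
    intro τ u
    by_cases hP : ∃ k : Fin 6, k.val < 4 ∧ (1 ≤ u k ∨ k ∈ τ)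
    · exact L1 h2K A hcycA τ u hP
    · push Not at hP
      have h1 : A τ u = 0 := by
        by_contra h
        obtain ⟨h3, h4⟩ := (hG τ).1 u h
        rw [degree_six] at h3
        have h5 := (hP 0 (by decide)).1
        have h6 := (hP 1 (by decide)).1
        have h7 := (hP 2 (by decide)).1
        have h8 := (hP 3 (by decide)).1
        have h9 := h4.1
        have h10 := h4.2
        omega
      rw [h1]
      refine Finset.sum_eq_zero fun k hk => ?_
      rw [mem_sdiff, mem_X4] at hk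
      have := (hP k hk.1).1
      rw [if_neg (by omega)]
  have httG : ∀ σ u, tt A σ u ≠ 0 → σ.card = 4 ∧ u.degree = d ∧ xonly u := by
    intro σ u h
    obtain ⟨k, hk, hk'⟩ := tt_ne A h
    rw [hk'] at h
    obtain ⟨h3, h4⟩ := (hG (σ.erase k)).1 _ h
    rw [degree_add, degree_e] at h3
    exact ⟨card_of_erase hk (hA3 _ _ h), by omega, (xonly_add.1 h4).1⟩
  let η1 : Finset (Fin 6) → R := fun σ => TrivSqZeroExt.inl (pc d (tt A σ))
  have hcoeff : ∀ σ u, coeff u (pc d (tt A σ)) = tt A σ u := fun σ u =>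
    coeff_pc (fun u hu => (httG σ u hu).2.1) u
  have hη1G : ∀ σ, G d (η1 σ) := by
    intro σ
    apply G_inl
    intro m hm
    rw [hcoeff] at hm
    exact (httG σ m hm).2
  have hη1c : ∀ σ, σ.card ≠ 4 → η1 σ = 0 := by
    intro σ hσ
    have : pc d (tt A σ) = 0 := by
      ext u
      rw [hcoeff, coeff_zero]
      by_contra h
      exact hσ (httG σ u h).1
    change TrivSqZeroExt.inl (pc d (tt A σ)) = 0
    rw [this, TrivSqZeroExt.inl_zero]
  have hη1d : ∀ τ, (dif η1 τ).fst = (w τ).fst := by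
    intro τ
    ext u
    rw [coeff_dif]
    have h1 : ∀ k ∈ X4 \ τ, (if 1 ≤ u k then coeff (u - e k) (η1 (insert k τ)).fst else 0) =
        if 1 ≤ u k then tt A (insert k τ) (u - e k) else 0 := by
      intro k _
      change (if 1 ≤ u k then coeff (u - e k)
        (TrivSqZeroExt.inl (pc d (tt A (insert k τ))) : R).fst else 0) = _
      rw [TrivSqZeroExt.fst_inl, hcoeff]
    rw [Finset.sum_congr rfl h1, hL1]
  -- the second part
  let w' : Finset (Fin 6) → R := fun σ => w σ + dif η1 σ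
  have hw'f : ∀ σ, (w' σ).fst = 0 := by
    intro σ
    change (w σ + dif η1 σ).fst = 0
    rw [TrivSqZeroExt.fst_add, hη1d, h2T]
  have hw'G : ∀ σ, G (d + 1) (w' σ) := fun σ => G_add (hG σ) (G_dif hη1G σ)
  have hw'd : ∀ τ, dif w' τ = 0 := by
    intro τ
    change dif (fun σ => w σ + dif η1 σ) τ = 0
    rw [dif_add, hc, zero_add]
    exact dif_dif η1 τ
  have hw'c : ∀ σ, σ.card ≠ 3 → w' σ = 0 := by
    intro σ hσ
    change w σ + dif η1 σ = 0
    rw [hw σ hσ, zero_add]
    refine Finset.sum_eq_zero fun k hk => ?_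
    rw [mem_compl] at hk
    rw [hη1c _ (by rw [Finset.card_insert_of_notMem hk]; omega), mul_zero]
  let B : Finset (Fin 6) → U → K := fun σ v => ev (w' σ).snd (monomial v 1)
  have hB3 : ∀ σ v, B σ v ≠ 0 → σ.card = 3 := by
    intro σ v h
    by_contra h1
    apply h
    change ev (w' σ).snd (monomial v 1) = 0
    rw [hw'c σ h1, TrivSqZeroExt.snd_zero, ev_zero]
  have hcycB : ∀ τ v, ∑ k ∈ X4 \ τ, B (insert k τ) (v + e k) = 0 := by
    intro τ v
    have h := ev_dif w' hw'f τ v
    rw [hw'd, TrivSqZeroExt.snd_zero, ev_zero] at h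
    exact h.symm
  have hL2 : ∀ τ v, ∑ k ∈ X4 \ τ, pp B (insert k τ) (v + e k) = B τ v := by
    intro τ v
    by_cases hP : ∃ k : Fin 6, k.val < 4 ∧ (1 ≤ v k ∨ k ∉ τ)
    · exact L2 h2K B hcycB τ v hP
    · push Not at hP
      have hsub : X4 ⊆ τ := fun k hk => (hP k ((mem_X4 k).1 hk)).2
      have hcard : X4.card = 4 := by decide
      have h1 : B τ v = 0 := by
        by_contra h
        have h3 := hB3 τ v h
        have h5 := Finset.card_le_card hsub
        omega
      rw [h1, Finset.sdiff_eq_empty_iff_subset.2 hsub, Finset.sum_empty]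
  have hppG : ∀ σ v, pp B σ v ≠ 0 → σ.card = 4 ∧ v.degree + d = 15 ∧ xonly v := by
    intro σ v h
    obtain ⟨k, hk, hk4, hvk, hk'⟩ := pp_ne' B h
    rw [hk'] at h
    obtain ⟨h3, h4⟩ := (hw'G (σ.erase k)).2 _ h
    have h5 : v.degree = (v - e k).degree + 1 := by
      conv_lhs => rw [← sub_add_e hvk]
      rw [degree_add, degree_e]
    have h6 : xonly v := by
      rw [← sub_add_e hvk]
      exact xonly_add.2 ⟨h4, xonly_e hk4⟩
    exact ⟨card_of_erase hk (hB3 _ _ h), by omega, h6⟩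
  let η2 : Finset (Fin 6) → R := fun σ => TrivSqZeroExt.inr (ofFun (pp B σ))
  have hη2G : ∀ σ, G d (η2 σ) := by
    intro σ
    apply G_inr
    intro v hv
    rw [ev_ofFun] at hv
    exact (hppG σ v hv).2
  have hη2c : ∀ σ, σ.card ≠ 4 → η2 σ = 0 := by
    intro σ hσ
    have : ofFun (pp B σ) = 0 := by
      apply E_ext
      intro v
      rw [ev_ofFun, ev_zero]
      by_contra h
      exact hσ (hppG σ v h).1
    change TrivSqZeroExt.inr (ofFun (pp B σ)) = 0
    rw [this, TrivSqZeroExt.inr_zero]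
  have hη2d : ∀ τ, dif η2 τ = w' τ := by
    intro τ
    have hf : ∀ σ, (η2 σ).fst = 0 := fun σ => TrivSqZeroExt.fst_inr _ _
    apply TrivSqZeroExt.ext
    · rw [hw'f]
      ext u
      rw [coeff_dif, coeff_zero]
      refine Finset.sum_eq_zero fun k _ => ?_
      rw [hf, coeff_zero, ite_self]
    · apply E_ext
      intro v
      rw [ev_dif η2 hf]
      have h1 : ∀ k ∈ X4 \ τ, ev (η2 (insert k τ)).snd (monomial (v + e k) 1) =
          pp B (insert k τ) (v + e k) := by
        intro k _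
        change ev (TrivSqZeroExt.inr (ofFun (pp B (insert k τ))) : R).snd _ = _
        rw [TrivSqZeroExt.snd_inr, ev_ofFun]
      rw [Finset.sum_congr rfl h1, hL2]
  refine ⟨fun σ => η1 σ + η2 σ, ?_, ?_, ?_⟩
  · intro σ hσ
    change η1 σ + η2 σ = 0
    rw [hη1c σ hσ, hη2c σ hσ, add_zero]
  · exact fun σ => G_add (hη1G σ) (hη2G σ)
  · intro τ
    rw [dif_add, hη2d]
    change dif η1 τ + (w τ + dif η1 τ) = w τ
    rw [add_comm (w τ), ← add_assoc, h2R, zero_add]

end Pool.Agent.X272.WC
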