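import Pool.Agent.X272.WC.Cert
import Pool.Agent.X272.WC.Comb

/-! The idealization of a polynomial ring with a submodule of its dual. -/

set_option autoImplicit false

namespace Pool.Agent.X272.WC

open MvPolynomial Finset

/-- the field with two elements -/
abbrev K : Type := ZMod 2

/-- the polynomial ring in six variables -/
abbrev T : Type := MvPolynomial (Fin 6) K

/-- the dual space of the polynomial ring -/
def E : Type := T →ₗ[K] K

noncomputable instance : AddCommGroup E := inferInstanceAs (AddCommGroup (T →ₗ[K] K))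

/-- a functional as a linear map -/
noncomputable def toL (φ : E) : T →ₗ[K] K := φ

/-- a linear map as a functional -/
noncomputable def ofL (φ : T →ₗ[K] K) : E := φ

/-- evaluation of a functional -/
noncomputable def ev (φ : E) (f : T) : K := toL φ f

theorem ev_add (φ ψ : E) (f : T) : ev (φ + ψ) f = ev φ f + ev ψ f := rfl

theorem ev_zero (f : T) : ev 0 f = 0 := rfl

theorem ev_add' (φ : E) (f g : T) : ev φ (f + g) = ev φ f + ev φ g :=
  map_add (toL φ) f g

theorem ev_zero' (φ : E) : ev φ 0 = 0 := map_zero (toL φ)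

/-- evaluation as an additive map -/
noncomputable def evHom (f : T) : E →+ K where
  toFun φ := ev φ f
  map_zero' := rfl
  map_add' _ _ := rfl

/-- evaluation as an additive map of the polynomial -/
noncomputable def evHom' (φ : E) : T →+ K where
  toFun f := ev φ f
  map_zero' := ev_zero' φ
  map_add' := ev_add' φ

theorem ev_sum {ι : Type*} (s : Finset ι) (φ : ι → E) (f : T) :
    ev (∑ i ∈ s, φ i) f = ∑ i ∈ s, ev (φ i) f := map_sum (evHom f) φ s

theorem ev_sum' {ι : Type*} (s : Finset ι) (φ : E) (f : ι → T) :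
    ev φ (∑ i ∈ s, f i) = ∑ i ∈ s, ev φ (f i) := map_sum (evHom' φ) f s

theorem E_ext' {φ ψ : E} (h : ∀ f : T, ev φ f = ev ψ f) : φ = ψ :=
  LinearMap.ext (f := toL φ) (g := toL ψ) h

theorem E_ext {φ ψ : E} (h : ∀ v : U, ev φ (monomial v 1) = ev ψ (monomial v 1)) : φ = ψ := by
  have h1 : toL φ = toL ψ := by
    apply (basisMonomials (Fin 6) K).ext
    intro v
    rw [coe_basisMonomials]
    exact h v
  exact h1

noncomputable instance : SMul T E := ⟨fun g φ => ofL ((toL φ) ∘ₗ (LinearMap.mulLeft K g))⟩

theorem ev_smul (g : T) (φ : E) (f : T) : ev (g • φ) f = ev φ (g * f) := rfl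

noncomputable instance : Module T E where
  one_smul φ := by
    apply E_ext'; intro f
    rw [ev_smul, one_mul]
  mul_smul a b φ := by
    apply E_ext'; intro f
    rw [ev_smul, ev_smul, ev_smul]
    congr 1
    ring
  smul_zero a := by
    apply E_ext'; intro f
    rw [ev_smul, ev_zero, ev_zero]
  smul_add a φ ψ := by
    apply E_ext'; intro f
    rw [ev_smul, ev_add, ev_add, ev_smul, ev_smul]
  add_smul a b φ := by
    apply E_ext'; intro f
    rw [ev_smul, ev_add, ev_smul, ev_smul, add_mul, ev_add']
  zero_smul φ := by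
    apply E_ext'; intro f
    rw [ev_smul, zero_mul, ev_zero', ev_zero]

noncomputable instance : Module Tᵐᵒᵖ E := Module.compHom E ((RingHom.id T).fromOpposite mul_comm)

instance : IsCentralScalar T E := ⟨fun _ _ => rfl⟩

/-- the idealization -/
abbrev R : Type := TrivSqZeroExt T E

noncomputable example : CommRing R := inferInstance

/-- the functional with given values on the monomials -/
noncomputable def ofFun (f : U → K) : E := (basisMonomials (Fin 6) K).constr K f

theorem ev_ofFun (f : U → K) (v : U) : ev (ofFun f) (monomial v 1) = f v := by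
  have h := (basisMonomials (Fin 6) K).constr_basis K f v
  rw [coe_basisMonomials] at h
  exact h

/-- the code of an exponent -/
def code (m : U) : ℕ := m 0 + 15 * m 1 + 225 * m 2

/-- only the first four variables occur -/
def xonly (m : U) : Prop := m 4 = 0 ∧ m 5 = 0

open Classical in
/-- the values of the functional given by the bits of `N` -/
noncomputable def fv (N : ℕ) (m : U) : K :=
  if m.degree = 14 ∧ xonly m ∧ N.testBit (code m) = true then 1 else 0

/-- the functional given by the bits of `N` -/
noncomputable def FF (N : ℕ) : E := ofFun (fv N)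

theorem ev_FF (N : ℕ) (v : U) : ev (FF N) (monomial v 1) = fv N v := ev_ofFun _ _

theorem h2K (x : K) : x + x = 0 := CharTwo.add_self_eq_zero x

theorem h2T (x : T) : x + x = 0 := CharTwo.add_self_eq_zero x

theorem h2E (x : E) : x + x = 0 := by
  apply E_ext
  intro v
  rw [ev_add, h2K, ev_zero]

theorem h2R (x : R) : x + x = 0 := by
  apply TrivSqZeroExt.ext
  · rw [TrivSqZeroExt.fst_add, h2T, TrivSqZeroExt.fst_zero]
  · rw [TrivSqZeroExt.snd_add, h2E, TrivSqZeroExt.snd_zero]

theorem ev_smul_monomial (s : T) (φ : E) (v : U) :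
    ev (s • φ) (monomial v 1) = ∑ m ∈ s.support, coeff m s * ev φ (monomial (m + v) 1) := by
  rw [ev_smul]
  conv_lhs => rw [← support_sum_monomial_coeff s]
  rw [Finset.sum_mul, ev_sum']
  refine Finset.sum_congr rfl fun m _ => ?_
  rw [monomial_mul, mul_one]
  have : (monomial (m + v) (coeff m s) : T) = (coeff m s) • monomial (m + v) 1 := by
    rw [smul_monomial, smul_eq_mul, mul_one]
  rw [this]
  exact map_smul (toL φ) _ _

theorem ev_X_smul (k : Fin 6) (φ : E) (v : U) :
    ev ((X k : T) • φ) (monomial v 1) = ev φ (monomial (v + e k) 1) := by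
  rw [ev_smul]
  congr 1
  rw [X, monomial_mul, mul_one, add_comm]
  rfl

theorem degree_add (m v : U) : (m + v).degree = m.degree + v.degree := map_add _ _ _

theorem degree_e (k : Fin 6) : (e k).degree = 1 := by
  simp [e]

theorem xonly_add {m v : U} : xonly (m + v) ↔ xonly m ∧ xonly v := by
  unfold xonly
  simp only [Finsupp.coe_add, Pi.add_apply, Nat.add_eq_zero_iff]
  tauto

theorem xonly_e {k : Fin 6} (h : k.val < 4) : xonly (e k) := by
  unfold xonly
  refine ⟨e_ne ?_, e_ne ?_⟩
  · rintro rfl; exact absurd h (by decide)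
  · rintro rfl; exact absurd h (by decide)

/-- the elements of degree `d` of the idealization -/
def G (d : ℕ) (w : R) : Prop :=
  (∀ m, coeff m w.fst ≠ 0 → m.degree = d ∧ xonly m) ∧
    ∀ v, ev w.snd (monomial v 1) ≠ 0 → v.degree + d = 15 ∧ xonly v

theorem G_zero (d : ℕ) : G d 0 := by
  refine ⟨fun m hm => absurd ?_ hm, fun v hv => absurd ?_ hv⟩
  · simp
  · simp [ev_zero]

theorem G_add {d : ℕ} {w w' : R} (h : G d w) (h' : G d w') : G d (w + w') := by
  constructor
  · intro m hm
    by_cases h1 : coeff m w.fst = 0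
    · refine h'.1 m ?_
      rw [TrivSqZeroExt.fst_add, coeff_add, h1, zero_add] at hm
      exact hm
    · exact h.1 m h1
  · intro v hv
    by_cases h1 : ev w.snd (monomial v 1) = 0
    · refine h'.2 v ?_
      rw [TrivSqZeroExt.snd_add, ev_add, h1, zero_add] at hv
      exact hv
    · exact h.2 v h1

theorem G_sum {d : ℕ} {ι : Type*} (s : Finset ι) (w : ι → R) (h : ∀ i ∈ s, G d (w i)) :
    G d (∑ i ∈ s, w i) := by
  classical
  induction s using Finset.induction_on with
  | empty => rw [Finset.sum_empty]; exact G_zero d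
  | insert a s ha ih =>
    rw [Finset.sum_insert ha]
    exact G_add (h a (mem_insert_self _ _)) (ih fun i hi => h i (mem_insert_of_mem hi))

theorem G_mul {d d' : ℕ} {w w' : R} (h : G d w) (h' : G d' w') : G (d + d') (w * w') := by
  constructor
  · intro m hm
    rw [TrivSqZeroExt.fst_mul, coeff_mul] at hm
    obtain ⟨⟨a, b⟩, hab, hne⟩ := Finset.exists_ne_zero_of_sum_ne_zero hm
    rw [HasAntidiagonal.mem_antidiagonal] at hab
    simp only at hab hne
    obtain ⟨h1, h3⟩ := h.1 a (left_ne_zero_of_mul hne)
    obtain ⟨h4, h5⟩ := h'.1 b (right_ne_zero_of_mul hne)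
    rw [← hab]
    exact ⟨by rw [degree_add, h1, h4], xonly_add.2 ⟨h3, h5⟩⟩
  · intro v hv
    rw [TrivSqZeroExt.snd_mul, ev_add] at hv
    have key : ∀ (a b : ℕ) (x y : R), G a x → G b y → ev (x.fst • y.snd) (monomial v 1) ≠ 0 →
        v.degree + (a + b) = 15 ∧ xonly v := by
      intro a b x y hx hy hne
      rw [ev_smul_monomial] at hne
      obtain ⟨m, _, hne⟩ := Finset.exists_ne_zero_of_sum_ne_zero hne
      obtain ⟨h1, h3⟩ := hx.1 m (left_ne_zero_of_mul hne)
      obtain ⟨h4, h5⟩ := hy.2 (m + v) (right_ne_zero_of_mul hne)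
      rw [degree_add, h1] at h4
      exact ⟨by omega, (xonly_add.1 h5).2⟩
    by_cases h1 : ev (w.fst • w'.snd) (monomial v 1) = 0
    · rw [h1, zero_add] at hv
      have h3 := key d' d w' w h' h hv
      exact ⟨by omega, h3.2⟩
    · exact key d d' w w' h h' h1

theorem G_inl {d : ℕ} {s : T} (h : ∀ m, coeff m s ≠ 0 → m.degree = d ∧ xonly m) :
    G d (TrivSqZeroExt.inl s : R) := by
  refine ⟨fun m hm => h m (by simpa using hm), fun v hv => absurd ?_ hv⟩
  rw [TrivSqZeroExt.snd_inl, ev_zero]

theorem G_inr {d : ℕ} {φ : E} (h : ∀ v, ev φ (monomial v 1) ≠ 0 → v.degree + d = 15 ∧ xonly v) :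
    G d (TrivSqZeroExt.inr φ : R) := by
  refine ⟨fun m hm => absurd ?_ hm, fun v hv => h v (by simpa using hv)⟩
  rw [TrivSqZeroExt.fst_inr, coeff_zero]

theorem G_C (a : K) : G 0 (TrivSqZeroExt.inl (C a) : R) := by
  apply G_inl
  intro m hm
  rw [coeff_C] at hm
  have h0 : 0 = m := by
    by_contra h
    rw [if_neg h] at hm
    exact hm rfl
  rw [← h0]
  exact ⟨map_zero _, rfl, rfl⟩

/-- the images of the variables -/
noncomputable def gen (k : Fin 6) : R :=
  if k.val < 4 then TrivSqZeroExt.inl (X k)
  else if k.val = 4 then TrivSqZeroExt.inr (FF N0) else TrivSqZeroExt.inr (FF N1)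

theorem G_gen (k : Fin 6) : G 1 (gen k) := by
  unfold gen
  have hF : ∀ N, G 1 (TrivSqZeroExt.inr (FF N) : R) := by
    intro N
    apply G_inr
    intro v hv
    rw [ev_FF] at hv
    unfold fv at hv
    split_ifs at hv with h
    · exact ⟨by rw [h.1], h.2.1⟩
    · exact absurd rfl hv
  split_ifs with h1 h3
  · apply G_inl
    intro m hm
    rw [coeff_X] at hm
    have h0 : Finsupp.single k 1 = m := by
      by_contra h
      rw [if_neg h] at hm
      exact hm rfl
    rw [← h0]
    exact ⟨degree_e k, xonly_e h1⟩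
  · exact hF _
  · exact hF _

/-- the homomorphism to the idealization -/
noncomputable def Psi : T →+* R := eval₂Hom ((TrivSqZeroExt.inlHom T E).comp C) gen

theorem Psi_X (k : Fin 6) : Psi (X k) = gen k := by
  unfold Psi
  rw [eval₂Hom_X']

theorem Psi_C (a : K) : Psi (C a) = TrivSqZeroExt.inl (C a) := by
  unfold Psi
  rw [eval₂Hom_C]
  rfl

theorem G_one : G 0 (1 : R) := by
  have h := G_C 1
  rw [C_1] at h
  exact h

theorem G_prod (s : Finset (Fin 6)) (m : Fin 6 → ℕ) :
    G (∑ i ∈ s, m i) (∏ i ∈ s, gen i ^ m i) := by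
  have hpow : ∀ (i : Fin 6) (n : ℕ), G n (gen i ^ n) := by
    intro i n
    induction n with
    | zero => rw [pow_zero]; exact G_one
    | succ n ih => rw [pow_succ]; exact G_mul ih (G_gen i)
  induction s using Finset.induction_on with
  | empty => simp only [Finset.sum_empty, Finset.prod_empty]; exact G_one
  | insert a s ha ih =>
    rw [Finset.sum_insert ha, Finset.prod_insert ha]
    exact G_mul (hpow a _) ih

theorem G_monomial (m : U) (a : K) : G m.degree (Psi (monomial m a)) := by
  unfold Psi
  rw [eval₂Hom_monomial]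
  have h1 := G_prod m.support m
  have h3 := G_mul (G_C a) h1
  rw [zero_add] at h3
  exact h3

theorem G_Psi {d : ℕ} {p : T} (hp : p.IsHomogeneous d) : G d (Psi p) := by
  rw [← support_sum_monomial_coeff p, map_sum]
  apply G_sum
  intro m hm
  have h1 : m.degree = d := by
    by_contra h
    exact (mem_support_iff.1 hm) (hp.coeff_eq_zero h)
  rw [← h1]
  exact G_monomial m _

end Pool.Agent.X272.WC
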