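import Pool.Agent.X272.WC.Cover

/-! Surjectivity in high degrees. -/

set_option autoImplicit false

namespace Pool.Agent.X272.WC

open MvPolynomial Finset

theorem Psi_xmon (m : U) (a : K) (hm : xonly m) :
    Psi (monomial m a) = TrivSqZeroExt.inl (monomial m a) := by
  have h1 : (monomial m a : T) = C a * m.prod fun k n => X k ^ n := monomial_eq
  unfold Psi
  rw [eval₂Hom_monomial]
  conv_rhs => rw [h1]
  have h3 : (m.prod fun k n => gen k ^ n) =
      TrivSqZeroExt.inlHom T E (m.prod fun k n => (X k : T) ^ n) := by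
    rw [Finsupp.prod, Finsupp.prod, map_prod]
    refine Finset.prod_congr rfl fun k hk => ?_
    rw [map_pow]
    have hk4 : k.val < 4 := by
      rw [Finsupp.mem_support_iff] at hk
      have h5 : k ≠ 4 := fun h => hk (h ▸ hm.1)
      have h6 : k ≠ 5 := fun h => hk (h ▸ hm.2)
      have h7 := k.isLt
      have h8 : k.val ≠ 4 := fun h => h5 (Fin.ext h)
      have h9 : k.val ≠ 5 := fun h => h6 (Fin.ext h)
      omega
    unfold gen
    rw [if_pos hk4]
    rfl
  rw [h3]
  change TrivSqZeroExt.inlHom T E (C a) * _ = TrivSqZeroExt.inlHom T E _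
  rw [← map_mul]

theorem Psi_xpoly (p : T) (hp : ∀ m, coeff m p ≠ 0 → xonly m) :
    Psi p = TrivSqZeroExt.inl p := by
  have h : Psi p = TrivSqZeroExt.inlHom T E p := by
    conv_lhs => rw [← support_sum_monomial_coeff p]
    conv_rhs => rw [← support_sum_monomial_coeff p]
    rw [map_sum, map_sum]
    refine Finset.sum_congr rfl fun m hm => ?_
    rw [Psi_xmon m _ (hp m (mem_support_iff.1 hm))]
    rfl
  exact h

theorem homog_of_supp {p : T} {d : ℕ} (hp : ∀ m, coeff m p ≠ 0 → m.degree = d ∧ xonly m) :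
    p.IsHomogeneous d := by
  intro m hm
  rw [← (hp m hm).1, Finsupp.degree_eq_weight_one]
  rfl

theorem gen_4 : gen 4 = TrivSqZeroExt.inr (FF N0) := rfl

theorem gen_5 : gen 5 = TrivSqZeroExt.inr (FF N1) := rfl

theorem inl_mul_inr' (g : T) (φ : E) :
    (TrivSqZeroExt.inl g : R) * TrivSqZeroExt.inr φ = TrivSqZeroExt.inr (g • φ) :=
  TrivSqZeroExt.inl_mul_inr _ _

/-- the indicator functionals of order eight are reached -/
theorem surj8 (w : U) (hw : w.degree = 8) (hx : xonly w) :
    ∃ p : T, p.IsHomogeneous 7 ∧ Psi p = TrivSqZeroExt.inr (del w) := by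
  obtain ⟨g0, g1, h0, h1, h⟩ := cover w hw hx
  refine ⟨g0 * X 4 + g1 * X 5, ?_, ?_⟩
  · exact ((homog_of_supp h0).mul (isHomogeneous_X K 4)).add
      ((homog_of_supp h1).mul (isHomogeneous_X K 5))
  · rw [map_add, map_mul, map_mul, Psi_X, Psi_X, Psi_xpoly g0 fun m hm => (h0 m hm).2,
      Psi_xpoly g1 fun m hm => (h1 m hm).2, gen_4, gen_5, inl_mul_inr', inl_mul_inr',
      ← TrivSqZeroExt.inr_add, h]

theorem monomial_del (a w : U) :
    (monomial a 1 : T) • del (w + a) = del w := by
  apply E_ext
  intro v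
  rw [ev_smul, monomial_mul, mul_one, ev_del, ev_del]
  by_cases h : v = w
  · rw [if_pos h, if_pos (by rw [h, add_comm])]
  · rw [if_neg h, if_neg]
    intro h1
    apply h
    rw [add_comm w a] at h1
    exact add_left_cancel h1

theorem surj_del (w : U) (d : ℕ) (hd : 7 ≤ d) (hw : w.degree + d = 15) (hx : xonly w) :
    ∃ p : T, p.IsHomogeneous d ∧ Psi p = TrivSqZeroExt.inr (del w) := by
  have ha : xonly (Finsupp.single (0 : Fin 6) (d - 7)) := by
    refine ⟨?_, ?_⟩ <;> rw [Finsupp.single_apply, if_neg (by decide)]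
  have hda : (Finsupp.single (0 : Fin 6) (d - 7)).degree = d - 7 := Finsupp.degree_single _ _
  obtain ⟨p, hp, hp'⟩ := surj8 (w + Finsupp.single (0 : Fin 6) (d - 7))
    (by rw [degree_add, hda]; omega) (xonly_add.2 ⟨hx, ha⟩)
  refine ⟨monomial (Finsupp.single (0 : Fin 6) (d - 7)) 1 * p, ?_, ?_⟩
  · have h1 : (monomial (Finsupp.single (0 : Fin 6) (d - 7)) (1 : K)).IsHomogeneous (d - 7) :=
      isHomogeneous_monomial _ hda
    have h3 := h1.mul hp
    have h5 : d - 7 + 7 = d := by omega
    rw [h5] at h3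
    exact h3
  · rw [map_mul, hp', Psi_xmon _ _ ha, inl_mul_inr', monomial_del]

open Classical in
theorem surj (w : R) (d : ℕ) (hd : 7 ≤ d) (hw : G d w) :
    ∃ p : T, p.IsHomogeneous d ∧ Psi p = w := by
  obtain ⟨hw1, hw2⟩ := hw
  -- the second part
  have key : ∃ p : T, p.IsHomogeneous d ∧ Psi p = TrivSqZeroExt.inr w.snd := by
    by_cases hd15 : d ≤ 15
    · have hfin : w.snd = ∑ v ∈ (finsuppAntidiag (univ : Finset (Fin 6)) (15 - d)).filter
          (fun v => ev w.snd (monomial v 1) ≠ 0), del v := by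
        apply E_ext
        intro u
        rw [ev_sum]
        simp only [ev_del]
        rw [Finset.sum_ite_eq]
        by_cases hu : ev w.snd (monomial u 1) = 0
        · rw [hu, if_neg]
          intro h
          exact (mem_filter.1 h).2 hu
        · have h1 : ev w.snd (monomial u 1) = 1 := by
            have : ∀ x : K, x ≠ 0 → x = 1 := by decide
            exact this _ hu
          rw [if_pos, h1]
          rw [mem_filter, mem_finsuppAntidiag]
          refine ⟨⟨?_, fun x _ => mem_univ x⟩, hu⟩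
          have h3 := (hw2 u hu).1
          rw [Finsupp.degree_eq_sum] at h3
          have h5 : (∑ i, u i) = 15 - d := by omega
          exact h5
      have hch : ∀ v : U, ∃ p : T, p.IsHomogeneous d ∧
          (ev w.snd (monomial v 1) ≠ 0 → Psi p = TrivSqZeroExt.inr (del v)) := by
        intro v
        by_cases hv : ev w.snd (monomial v 1) = 0
        · exact ⟨0, isHomogeneous_zero _ _ _, fun h => absurd hv h⟩
        · obtain ⟨p, hp, hp'⟩ := surj_del v d hd (hw2 v hv).1 (hw2 v hv).2
          exact ⟨p, hp, fun _ => hp'⟩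
      choose q hq hq' using hch
      refine ⟨∑ v ∈ (finsuppAntidiag (univ : Finset (Fin 6)) (15 - d)).filter
          (fun v => ev w.snd (monomial v 1) ≠ 0), q v, ?_, ?_⟩
      · exact IsHomogeneous.sum _ _ _ fun v _ => hq v
      · rw [map_sum]
        have h7 : (TrivSqZeroExt.inr w.snd : R) = TrivSqZeroExt.inrHom T E w.snd := rfl
        rw [h7]
        conv_rhs => rw [hfin]
        rw [map_sum]
        refine Finset.sum_congr rfl fun v hv => ?_
        rw [hq' v (mem_filter.1 hv).2]
        rfl
    · refine ⟨0, isHomogeneous_zero _ _ _, ?_⟩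
      have : w.snd = 0 := by
        apply E_ext
        intro v
        rw [ev_zero]
        by_contra h
        have := (hw2 v h).1
        omega
      rw [this, map_zero, TrivSqZeroExt.inr_zero]
  obtain ⟨p, hp, hp'⟩ := key
  refine ⟨w.fst + p, (homog_of_supp hw1).add hp, ?_⟩
  rw [map_add, hp', Psi_xpoly _ fun m hm => (hw1 m hm).2]
  exact TrivSqZeroExt.inl_fst_add_inr_snd_eq w

end Pool.Agent.X272.WC
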